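import Mathlib
import Pool.Agent.H6.AvgL

set_option autoImplicit false

namespace Pool.Agent.Results.MP_3eb4be_co.Exact

/-- the maximum number of pairwise edge-disjoint `v`-`w` paths -/
noncomputable def lam {V : Type} (G : SimpleGraph V) (v w : V) : ℕ :=
  sSup {m | ∃ P : Fin m → G.Walk v w, (∀ i, (P i).IsPath) ∧
    ∀ i j, i ≠ j → (P i).edges.Disjoint (P j).edges}

/-- the average edge-connectivity: the mean of `lam` over all pairs of distinct vertices -/
noncomputable def avg {V : Type} [Fintype V] [DecidableEq V] (G : SimpleGraph V) : ℚ :=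
  (∑ p ∈ (Finset.univ : Finset V).offDiag, (lam G p.1 p.2 : ℚ)) /
    (Fintype.card V * (Fintype.card V - 1))

/-- `G` contains a `t`-edge-connected subgraph with at least two vertices -/
def HasSub {V : Type} (G : SimpleGraph V) (t : ℕ) : Prop :=
  ∃ (W : Type) (H : SimpleGraph W), Nontrivial W ∧ H.IsEdgeConnected t ∧ H.IsContained G

open Pool.Agent.H6 in
theorem result (l : ℕ) (hl : 1 ≤ l) :
    IsGreatest {t : ℕ | ∀ (V : Type) [Fintype V] [DecidableEq V] (G : SimpleGraph V),
      2 ≤ Fintype.card V → (l : ℚ) ≤ avg G → HasSub G t} (l / 2 + 1) := by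
  have key : ∀ (V : Type) [Fintype V] [DecidableEq V] (G : SimpleGraph V), 2 ≤ Fintype.card V →
      ((l : ℚ) ≤ avg G ↔ l * (Fintype.card V * (Fintype.card V - 1)) ≤
        ∑ p ∈ (Finset.univ : Finset V).offDiag, AvgL.lam G p.1 p.2) := by
    intro V _ _ G h
    have h' : (2 : ℚ) ≤ Fintype.card V := by exact_mod_cast h
    rw [avg, le_div_iff₀ (mul_pos (by linarith) (by linarith)), ← Nat.cast_le (α := ℚ)]
    push_cast [Nat.cast_sub (show 1 ≤ Fintype.card V by omega)]
    rfl
  refine ⟨fun V _ _ G h2 h => AvgL.lower G l hl h2 ((key V G h2).1 h), fun t ht => ?_⟩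
  by_cases c : l = 1
  · subst c
    refine AvgL.no_sub (⊤ : SimpleGraph (Fin 2)) (fun v => v.1) _ t (fun v => ?_)
      (ht (Fin 2) ⊤ (by simp) ((key _ _ (by simp)).2 ?_))
    · refine (Set.ncard_le_one_iff_subsingleton.2 fun x hx y hy => ?_)
      have := hx.1; have := hy.1
      simp only [SimpleGraph.top_adj, ne_eq] at *
      omega
    · have := Finset.card_nsmul_le_sum (Finset.univ : Finset (Fin 2)).offDiag
        (fun p => AvgL.lam (⊤ : SimpleGraph (Fin 2)) p.1 p.2) 1 (fun p hp =>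
          AvgL.le_lam (C := Unit) ⊤ (Finset.mem_offDiag.1 hp).2.2 (fun _ => ⊤) (fun _ => le_rfl)
            (fun _ _ _ _ _ _ => rfl)
            (fun _ => SimpleGraph.Adj.reachable (Finset.mem_offDiag.1 hp).2.2))
      simpa using this
  · have : NeZero (l / 2 + 1) := ⟨by omega⟩
    have e : Fintype.card (Fin (14 * (l / 2 + 1)) × ZMod (l / 2 + 1)) =
        14 * (l / 2 + 1) * (l / 2 + 1) := by simp
    have h2 : 2 ≤ Fintype.card (Fin (14 * (l / 2 + 1)) × ZMod (l / 2 + 1)) := by
      rw [e]; nlinarith [Nat.zero_le (l / 2)]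
    refine AvgL.no_sub (AvgL.LG (14 * (l / 2 + 1)) (l / 2 + 1)) (fun v => v.1.1) _ t
      (AvgL.LG_deg _ _) (ht _ _ h2 ((key _ _ h2).2 ?_))
    rw [e]
    exact le_trans (Nat.mul_le_mul_right _ (by omega)) (AvgL.upper (l / 2 + 1) (by omega))

end Pool.Agent.Results.MP_3eb4be_co.Exact
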